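import Mathlib
import Pool.Agent.Helper86.AP.Goals

/-!
# Project AP (MP_bec853_al): packet CN1

The number of cyclically reduced words of length `n + 2` with exactly one letter `i`.
-/

set_option autoImplicit false

namespace Pool.Agent.Helper2.AP

section

variable {α : Type} [Fintype α] [DecidableEq α] (i : α)

/-- reduced words with head `a`, tail of length `l` without the letter `i`. -/
def rw' : ℕ → α × Bool → Finset (List (α × Bool))
  | 0, a => {[a]}
  | l + 1, a => (Finset.univ.filter (fun b : α × Bool => b.1 ≠ i ∧ b ≠ (a.1, !a.2))).biUnion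
      (fun b => (rw' l b).image (fun w => a :: w))

theorem mem_rw' (l : ℕ) (a : α × Bool) (w : List (α × Bool)) :
    w ∈ rw' i l a ↔ ∃ v : List (α × Bool), w = a :: v ∧ v.length = l ∧ (∀ x ∈ v, x.1 ≠ i) ∧
      FreeGroup.IsReduced w := by
  induction l generalizing a w with
  | zero =>
    rw [rw', Finset.mem_singleton]
    constructor
    · rintro rfl
      exact ⟨[], rfl, rfl, by simp, by simp [FreeGroup.IsReduced]⟩
    · rintro ⟨v, rfl, hv, -, -⟩
      rw [List.length_eq_zero_iff] at hv
      rw [hv]
  | succ l ih =>
    rw [rw', Finset.mem_biUnion]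
    constructor
    · rintro ⟨b, hb, hw⟩
      obtain ⟨w', hw', rfl⟩ := Finset.mem_image.1 hw
      obtain ⟨v, rfl, hv, hvi, hred⟩ := (ih b w').1 hw'
      obtain ⟨-, hbi, hba⟩ := Finset.mem_filter.1 hb
      refine ⟨b :: v, rfl, by simp [hv], ?_, ?_⟩
      · intro x hx
        rcases List.mem_cons.1 hx with rfl | hx
        · exact hbi
        · exact hvi x hx
      · unfold FreeGroup.IsReduced at hred ⊢
        rw [List.isChain_cons_cons]
        refine ⟨?_, hred⟩
        intro h1
        by_contra h2
        apply hba
        ext
        · exact h1.symm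
        · simp only
          cases h : a.2 <;> cases h' : b.2 <;> simp_all
    · rintro ⟨v, rfl, hv, hvi, hred⟩
      obtain ⟨b, v', rfl⟩ : ∃ b v', v = b :: v' := by
        cases v with
        | nil => simp at hv
        | cons b v' => exact ⟨b, v', rfl⟩
      unfold FreeGroup.IsReduced at hred
      rw [List.isChain_cons_cons] at hred
      refine ⟨b, ?_, ?_⟩
      · rw [Finset.mem_filter]
        refine ⟨Finset.mem_univ _, hvi b (by simp), ?_⟩
        rintro rfl
        have := hred.1 rfl
        simp at this
      · refine Finset.mem_image_of_mem _ ((ih b _).2 ⟨v', rfl, by simpa using hv, ?_, hred.2⟩)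
        intro x hx
        exact hvi x (List.mem_cons_of_mem b hx)

theorem card_letters : (Finset.univ.filter (fun b : α × Bool => b.1 ≠ i)).card
    = 2 * Fintype.card α - 2 := by
  have h1 : (Finset.univ.filter (fun b : α × Bool => b.1 ≠ i))
      = (Finset.univ.erase i) ×ˢ (Finset.univ : Finset Bool) := by
    ext ⟨x, y⟩
    simp
  rw [h1, Finset.card_product, Finset.card_erase_of_mem (Finset.mem_univ i), Finset.card_univ,
    Finset.card_univ, Fintype.card_bool]
  omega

theorem card_letters' (a : α × Bool) (ha : a.1 ≠ i) :
    (Finset.univ.filter (fun b : α × Bool => b.1 ≠ i ∧ b ≠ (a.1, !a.2))).card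
    = 2 * Fintype.card α - 3 := by
  have h1 : (Finset.univ.filter (fun b : α × Bool => b.1 ≠ i ∧ b ≠ (a.1, !a.2)))
      = (Finset.univ.filter (fun b : α × Bool => b.1 ≠ i)).erase (a.1, !a.2) := by
    ext b
    simp only [Finset.mem_filter, Finset.mem_univ, true_and, Finset.mem_erase]
    tauto
  rw [h1, Finset.card_erase_of_mem (by simpa using ha), card_letters]
  omega

theorem card_rw' (l : ℕ) (a : α × Bool) (ha : a.1 ≠ i) :
    (rw' i l a).card = (2 * Fintype.card α - 3) ^ l := by
  induction l generalizing a with
  | zero => rw [rw', Finset.card_singleton, pow_zero]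
  | succ l ih =>
    rw [rw', Finset.card_biUnion]
    · rw [Finset.sum_congr rfl (g := fun _ => (2 * Fintype.card α - 3) ^ l)]
      · rw [Finset.sum_const, card_letters' i a ha, smul_eq_mul, pow_succ, mul_comm]
      · intro b hb
        rw [Finset.card_image_of_injective _ (List.cons_injective), ih b]
        exact (Finset.mem_filter.1 hb).2.1
    · intro b _ b' _ hne
      rw [Function.onFun, Finset.disjoint_left]
      intro w hw hw'
      obtain ⟨w1, h1, rfl⟩ := Finset.mem_image.1 hw
      obtain ⟨w2, h2, h3⟩ := Finset.mem_image.1 hw'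
      have h4 : w2 = w1 := by simpa using h3
      subst h4
      obtain ⟨v, h5, -⟩ := (mem_rw' i l b _).1 h1
      obtain ⟨v', h6, -⟩ := (mem_rw' i l b' _).1 h2
      rw [h5] at h6
      apply hne
      simp only [List.cons.injEq] at h6
      exact h6.1

/-- reduced words of length `l + 1` without the letter `i`. -/
def RW (l : ℕ) : Finset (List (α × Bool)) :=
  (Finset.univ.filter (fun b : α × Bool => b.1 ≠ i)).biUnion (fun b => rw' i l b)

theorem mem_RW (l : ℕ) (w : List (α × Bool)) :
    w ∈ RW i l ↔ w.length = l + 1 ∧ (∀ x ∈ w, x.1 ≠ i) ∧ FreeGroup.IsReduced w := by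
  rw [RW, Finset.mem_biUnion]
  constructor
  · rintro ⟨b, hb, hw⟩
    obtain ⟨v, rfl, h1, h2, h3⟩ := (mem_rw' i l b w).1 hw
    refine ⟨by simp [h1], ?_, h3⟩
    intro x hx
    rcases List.mem_cons.1 hx with rfl | hx
    · exact (Finset.mem_filter.1 hb).2
    · exact h2 x hx
  · rintro ⟨h1, h2, h3⟩
    cases w with
    | nil => simp at h1
    | cons b v =>
      exact ⟨b, Finset.mem_filter.2 ⟨Finset.mem_univ _, h2 b (by simp)⟩,
        (mem_rw' i l b _).2 ⟨v, rfl, by simpa using h1,
          fun x hx => h2 x (List.mem_cons_of_mem b hx), h3⟩⟩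

theorem card_RW (l : ℕ) :
    (RW i l).card = (2 * Fintype.card α - 2) * (2 * Fintype.card α - 3) ^ l := by
  rw [RW, Finset.card_biUnion]
  · rw [Finset.sum_congr rfl (g := fun _ => (2 * Fintype.card α - 3) ^ l)]
    · rw [Finset.sum_const, card_letters, smul_eq_mul]
    · intro b hb
      exact card_rw' i l b (Finset.mem_filter.1 hb).2
  · intro b _ b' _ hne
    rw [Function.onFun, Finset.disjoint_left]
    intro w hw hw'
    obtain ⟨v, h5, -⟩ := (mem_rw' i l b _).1 hw
    obtain ⟨v', h6, -⟩ := (mem_rw' i l b' _).1 hw'
    rw [h5] at h6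
    apply hne
    simp only [List.cons.injEq] at h6
    exact h6.1

omit [Fintype α] in
/-- the key equivalence. -/
theorem red_iff (s : Bool) (u v : List (α × Bool)) (hu : ∀ x ∈ u, x.1 ≠ i)
    (hv : ∀ x ∈ v, x.1 ≠ i) (hne : v ++ u ≠ []) :
    FreeGroup.IsCyclicallyReduced (u ++ (i, s) :: v) ↔ FreeGroup.IsReduced (v ++ u) := by
  have h1 : FreeGroup.IsReduced (u ++ (i, s) :: v) ↔
      FreeGroup.IsReduced u ∧ FreeGroup.IsReduced v := by
    unfold FreeGroup.IsReduced
    rw [List.isChain_append, List.isChain_cons]
    constructor
    · rintro ⟨h1, ⟨-, h2⟩, -⟩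
      exact ⟨h1, h2⟩
    · rintro ⟨h1, h2⟩
      refine ⟨h1, ⟨?_, h2⟩, ?_⟩
      · intro y hy h
        exact absurd h.symm (hv y (List.mem_of_mem_head? hy))
      · intro x hx y hy h
        simp only [List.head?_cons, Option.mem_def, Option.some.injEq] at hy
        subst hy
        exact absurd h (hu x (List.mem_of_mem_getLast? hx))
  have h2 : FreeGroup.IsReduced (v ++ u) ↔ FreeGroup.IsReduced v ∧ FreeGroup.IsReduced u ∧
      ∀ x ∈ v.getLast?, ∀ y ∈ u.head?, x.1 = y.1 → x.2 = y.2 := by
    unfold FreeGroup.IsReduced
    rw [List.isChain_append]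
  have h3 : (∀ a ∈ (u ++ (i, s) :: v).getLast?, ∀ b ∈ (u ++ (i, s) :: v).head?,
      a.1 = b.1 → a.2 = b.2) ↔ ∀ x ∈ v.getLast?, ∀ y ∈ u.head?, x.1 = y.1 → x.2 = y.2 := by
    rcases List.eq_nil_or_concat v with rfl | ⟨v', z, rfl⟩
    · cases u with
      | nil => simp at hne
      | cons a u' =>
        constructor
        · intro _ x hx
          simp at hx
        · intro _ x hx y hy h
          rw [List.getLast?_append_of_ne_nil _ (by simp)] at hx
          simp only [List.getLast?_singleton, Option.mem_def, Option.some.injEq] at hx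
          simp only [List.cons_append, List.head?_cons, Option.mem_def, Option.some.injEq] at hy
          subst hx
          subst hy
          exact absurd h.symm (hu a (by simp))
    · have hl : (u ++ (i, s) :: (v'.concat z)).getLast? = some z := by
        rw [List.getLast?_append_of_ne_nil _ (by simp)]
        simp [List.getLast?_cons]
      have hl' : (v'.concat z).getLast? = some z := by simp
      rw [hl, hl']
      cases u with
      | nil =>
        constructor
        · intro _ x _ y hy
          simp at hy
        · intro _ x hx y hy h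
          simp only [List.nil_append, List.head?_cons, Option.mem_def, Option.some.injEq] at hx hy
          subst hx
          subst hy
          exact absurd h (hv z (by simp))
      | cons a u' =>
        simp
  unfold FreeGroup.IsCyclicallyReduced
  rw [h1, h2, h3]
  tauto

omit [Fintype α] in
theorem split_inj {s s' : Bool} {u v u' v' : List (α × Bool)} (hu : ∀ x ∈ u, x.1 ≠ i)
    (hu' : ∀ x ∈ u', x.1 ≠ i) (h : u ++ (i, s) :: v = u' ++ (i, s') :: v') :
    u = u' ∧ s = s' ∧ v = v' := by
  have key : ∀ (s : Bool) (u v : List (α × Bool)), (∀ x ∈ u, x.1 ≠ i) →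
      (u ++ (i, s) :: v).takeWhile (fun x => decide (x.1 ≠ i)) = u := by
    intro s u v hu
    induction u with
    | nil => simp
    | cons a u ih =>
      have h1 : a.1 ≠ i := hu a (by simp)
      rw [List.cons_append, List.takeWhile_cons_of_pos (by simpa using h1),
        ih (fun x hx => hu x (List.mem_cons_of_mem a hx))]
  have h1 : u = u' := by
    rw [← key s u v hu, ← key s' u' v' hu', h]
  subst h1
  have h2 := List.append_cancel_left h
  simp only [List.cons.injEq, Prod.mk.injEq, true_and] at h2
  exact ⟨rfl, h2.1, h2.2⟩

/-- the map of the bijection. -/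
def mk (n : ℕ) (p : ℕ × Bool × List (α × Bool)) : List (α × Bool) :=
  p.2.2.drop (n + 1 - p.1) ++ (i, p.2.1) :: p.2.2.take (n + 1 - p.1)

end

/-- **CN1**. -/
theorem tCN1 : Pool.Agent.Helper86.AP.S_CN1 := by
  intro α _ _ i n _
  have himg : {c : List (α × Bool) | FreeGroup.IsCyclicallyReduced c ∧ c.length = n + 2 ∧
      c.countP (fun x => x.1 = i) = 1} =
      (((Finset.range (n + 2)) ×ˢ (Finset.univ : Finset Bool) ×ˢ RW i n).image (mk i n) :
        Set (List (α × Bool))) := by
    ext c
    rw [Finset.mem_coe, Finset.mem_image]
    constructor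
    · rintro ⟨hc, hlen, hcnt⟩
      -- the letter
      have hpos : 0 < c.countP (fun x => x.1 = i) := by omega
      obtain ⟨x, hx, hxi⟩ := List.countP_pos_iff.1 hpos
      simp only [decide_eq_true_eq] at hxi
      obtain ⟨u, v, rfl⟩ := List.append_of_mem hx
      obtain ⟨xi, s⟩ := x
      simp only at hxi
      subst hxi
      rw [List.countP_append, List.countP_cons] at hcnt
      simp only [decide_true, if_true] at hcnt
      have hu0 : u.countP (fun x => decide (x.1 = xi)) = 0 := by omega
      have hv0 : v.countP (fun x => decide (x.1 = xi)) = 0 := by omega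
      rw [List.countP_eq_zero] at hu0 hv0
      have hu : ∀ x ∈ u, x.1 ≠ xi := fun x hx => by simpa using hu0 x hx
      have hv : ∀ x ∈ v, x.1 ≠ xi := fun x hx => by simpa using hv0 x hx
      rw [List.length_append, List.length_cons] at hlen
      have hne : v ++ u ≠ [] := by
        intro h
        have := congrArg List.length h
        rw [List.length_append, List.length_nil] at this
        omega
      have hred := (red_iff xi s u v hu hv hne).1 hc
      refine ⟨(u.length, s, v ++ u), ?_, ?_⟩
      · rw [Finset.mem_product, Finset.mem_product, Finset.mem_range, mem_RW]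
        refine ⟨by simp only; omega, Finset.mem_univ _, ?_, ?_, hred⟩
        · simp only [List.length_append]
          omega
        · intro x hx
          rcases List.mem_append.1 hx with hx | hx
          · exact hv x hx
          · exact hu x hx
      · unfold mk
        simp only
        have h1 : n + 1 - u.length = v.length := by omega
        rw [h1, List.drop_left, List.take_left]
    · rintro ⟨⟨k, s, w⟩, hp, rfl⟩
      rw [Finset.mem_product, Finset.mem_product, Finset.mem_range, mem_RW] at hp
      obtain ⟨hk, -, hwl, hwi, hred⟩ := hp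
      simp only at hk hwl hwi hred
      unfold mk
      simp only
      have hu : ∀ x ∈ w.drop (n + 1 - k), x.1 ≠ i := fun x hx => hwi x (List.mem_of_mem_drop hx)
      have hv : ∀ x ∈ w.take (n + 1 - k), x.1 ≠ i := fun x hx => hwi x (List.mem_of_mem_take hx)
      have hw : w.take (n + 1 - k) ++ w.drop (n + 1 - k) = w := List.take_append_drop _ _
      refine ⟨?_, ?_, ?_⟩
      · rw [red_iff i s _ _ hu hv]
        · rw [hw]
          exact hred
        · rw [hw]
          intro h
          rw [h] at hwl
          simp at hwl
      · rw [List.length_append, List.length_cons, List.length_drop, List.length_take]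
        omega
      · rw [List.countP_append, List.countP_cons]
        have h1 : (w.drop (n + 1 - k)).countP (fun x => decide (x.1 = i)) = 0 := by
          rw [List.countP_eq_zero]
          intro x hx
          simpa using hu x hx
        have h2 : (w.take (n + 1 - k)).countP (fun x => decide (x.1 = i)) = 0 := by
          rw [List.countP_eq_zero]
          intro x hx
          simpa using hv x hx
        rw [h1, h2]
        simp
  rw [himg, Set.ncard_coe_finset, Finset.card_image_of_injOn]
  · rw [Finset.card_product, Finset.card_product, Finset.card_range, Finset.card_univ,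
      Fintype.card_bool, card_RW]
  · rintro ⟨k, s, w⟩ hp ⟨k', s', w'⟩ hp' heq
    rw [Finset.mem_coe, Finset.mem_product, Finset.mem_product, Finset.mem_range, mem_RW] at hp hp'
    obtain ⟨hk, -, hwl, hwi, hred⟩ := hp
    obtain ⟨hk', -, hwl', hwi', hred'⟩ := hp'
    simp only at hk hwl hwi hred hk' hwl' hwi' hred'
    unfold mk at heq
    simp only at heq
    obtain ⟨h1, h2, h3⟩ := split_inj i (fun x hx => hwi x (List.mem_of_mem_drop hx))
      (fun x hx => hwi' x (List.mem_of_mem_drop hx)) heq
    have h4 : w = w' := by
      rw [← List.take_append_drop (n + 1 - k) w, ← List.take_append_drop (n + 1 - k') w', h1, h3]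
    have h5 : k = k' := by
      have := congrArg List.length h1
      rw [List.length_drop, List.length_drop] at this
      omega
    subst h4
    subst h5
    subst h2
    rfl

end Pool.Agent.Helper2.AP
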